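import Pool.Agent.Lib.MP_5d3e93_al.At.EvR

/-! The K-theoretic Farrell-Jones conjecture for Artin groups whose cliques are even or have at
most one label two and no spherical triangle. -/

open CoxeterSystem Pool.Agent.Lib.MP_5d3e93_al As

namespace Pool.Agent.Results.MP_5d3e93_al.Artin

universe v u

theorem result {S : Type v} (M : CoxeterMatrix S)
    (hM : ∀ T : Set S, (∀ s ∈ T, ∀ t ∈ T, M s t ≠ 0) →
      (∀ s ∈ T, ∀ t ∈ T, s ≠ t → Even (M s t)) ∨ ∀ a ∈ T, ∀ c ∈ T, M a c = 2 →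
        (∀ s ∈ T, ∀ t ∈ T, M s t = 2 → s = a ∧ t = c ∨ s = c ∧ t = a) ∧
          ∀ b ∈ T, b ≠ a → b ≠ c → 2 * (M a b + M c b) ≤ M a b * M c b) :
    FJ.{v, u} (PresentedGroup {r | ∃ s t, r = ((braidWord M s t).map FreeGroup.of).prod *
      ((braidWord M t s).map FreeGroup.of).prod⁻¹}) :=
  At.fj_mix M hM

end Pool.Agent.Results.MP_5d3e93_al.Artin
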