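import Pool.Agent.Lib.MP_5d3e93_al.Br.TE
import Pool.Agent.Lib.MP_5d3e93_al.At.Cz

/-! The K-theoretic Farrell-Jones conjecture for actions on a modular lattice with a shift and on
finitely many buildings or simply connected chamber systems of large type. -/

open MulAction Relation Pool.Agent.Lib.MP_5d3e93_al As At
open scoped Pointwise

namespace Pool.Agent.Results.MP_5d3e93_al.Buildings

universe v u

theorem result {G : Type v} [Group G] {X : Type v} [Lattice X] [Nonempty X] [MulAction G X]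
    {m : ℕ} (hm : 0 < m) (π : X ≃o X) (c : X → ℤ) (h₁ : ∀ x, π x ≤ x) (h₂ : StrictMono c)
    (h₃ : ∀ x y, c (x ⊔ y) + c (x ⊓ y) = c x + c y) (h₄ : ∀ x, c (π x) = c x - m)
    (h₅ : ∀ x y, ∃ k : ℕ, (π ^ k) x ≤ y) (h₆ : ∀ (g : G) (x y : X), x ≤ y → g • x ≤ g • y)
    (h₇ : ∀ (g : G) x, π (g • x) = g • π x) (h₈ : ∀ (g : G) x, c (g • x) = c x)
    {ι : Type} [Finite ι] {S : ι → Type} {C : ι → Type v} [∀ j, Nonempty (S j)]
    [∀ j, Nonempty (C j)] [∀ j, MulAction G (C j)] (ρ : ∀ j, S j → C j → C j → Prop)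
    (A : ∀ j, Set (Set (S j)))
    (hC : ∀ j, (∃ E, Chs (ρ j) E ∧ ∀ s t, E s t → {s, t} ∈ A j) ∨ ∃ (W : Type) (_ : Group W)
      (M : CoxeterMatrix (S j)) (cs : CoxeterSystem M W) (δ : C j → C j → W), Bld cs δ ∧
        (∀ s x y, ρ j s x y ↔ δ x y = 1 ∨ δ x y = cs.simple s) ∧ ∀ J : Set (S j), J.Finite →
          (∀ a ∈ J, ∀ b ∈ J, M a b ≠ 0) → (∀ a ∈ J, ∀ b ∈ J, ∀ c ∈ J, a ≠ b → a ≠ c → b ≠ c →
            M a b = 2 ∨ M a c = 2 ∨ M b c = 2) → J ∈ A j)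
    (hG : ∀ j s (g : G) x y, ρ j s x y → ρ j s (g • x) (g • y))
    {Y : Type v} [MulAction G Y]
    (hF : ∀ (H : Subgroup G) (y : Y), (orbit H y).Finite → ∃ z : Y, ∀ g ∈ H, g • z = z)
    (hY : ∀ y : Y, FJ.{v, max 1 u v} (stabilizer G y))
    (hA : ∀ (x : X) (z : ∀ j, C j) (J : ∀ j, Set (S j)), (∀ j, J j ∈ A j) →
      Acc (fun D₁ D : Subgroup G => ∃ t : G, ¬ LocHyper D ∧
        (¬ ∃ y : Y, ∀ g ∈ D ⊔ Subgroup.zpowers t, g • y = y) ∧ D₁ = D ⊓ MulAut.conj t • D)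
          (stabilizer G x ⊓ ⨅ j, stabilizer G
            {y | EqvGen (fun x y => ∃ s ∈ J j, ρ j s x y) (z j) y})) :
    FJ.{v, u} G :=
  Br.fj_of hF hY fun _ _ _ _ _ _ => kz_uni ⟨m, hm, π, c, h₁, h₂, h₃, h₄, h₅⟩ ⟨h₆, h₇, h₈⟩ hC hG
    fun x z J e => tm_of (hA x z J e) _ le_rfl

end Pool.Agent.Results.MP_5d3e93_al.Buildings
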