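import Pool.Agent.Lib.MP_5d3e93_al.Br.End
import Pool.Agent.Lib.MP_5d3e93_al.Br.DefE
import Pool.Agent.Lib.MP_5d3e93_al.K.NcD
import Pool.Agent.Lib.MP_5d3e93_al.K.NcE

/-! The K-theoretic Farrell-Jones conjecture for linear groups over commutative rings and over
algebras with degree functions. -/

open Pool.Agent.Lib.MP_5d3e93_al As

namespace Pool.Agent.Results.MP_5d3e93_al.Linear

universe v u

/-- Free algebras are an example. -/
theorem free (k : Type v) [Field k] (r : ℕ) : Deg (FreeAlgebra k (Fin r)) := deg_free k r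

theorem result {G : Type v} [Group G] (hG : ∀ H : Subgroup G, H.FG → ∃ (R : Type v)
    (_ : CommRing R) (s d : ℕ) (B : Fin s → Type v) (_ : ∀ i, Ring (B i))
    (φ : H →* GL (Fin d) R × ∀ i, GL (Fin d) (B i)), (∀ i, Deg (B i)) ∧ Hyper φ.ker) :
    FJ.{v, u} G := fun S hS hI _ ρ n =>
  have : Nonempty S.V := (hS ⊥ 1 inferInstance).nonempty
  bridge S (Br.set_fix (Br.orb_vc hS hI)) (fun _ _ _ _ _ _ k => kz_nc hG (Br.sw_of k hS)) ρ n

end Pool.Agent.Results.MP_5d3e93_al.Linear
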