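import Pool.Agent.Lib.MP_5d3e93_al.Br.TW

/-! The K-theoretic Farrell-Jones conjecture passes from the vertex groups to groups acting on
trees with small edge groups. -/

open MulAction Pool.Agent.Lib.MP_5d3e93_al As
open scoped Pointwise

namespace Pool.Agent.Results.MP_5d3e93_al.Trees

universe v u

theorem result {G : Type v} [Group G] {V : Type v} [MulAction G V] (T : SimpleGraph V)
    (hT : T.IsTree) (ha : ∀ (g : G) a b, T.Adj a b → T.Adj (g • a) (g • b))
    (hi : ∀ (g : G) a b, T.Adj a b → g • a = b → g • b ≠ a)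
    {ι : Type} [Finite ι] {W : ι → Type v} [∀ i, MulAction G (W i)] (U : ∀ i, SimpleGraph (W i))
    (hU : ∀ i, (U i).IsTree)
    (hb : ∀ i (g : G) a b, (U i).Adj a b → (U i).Adj (g • a) (g • b))
    (hj : ∀ i (g : G) a b, (U i).Adj a b → g • a = b → g • b ≠ a)
    {R : Type v} [CommRing R] {d : ℕ} (φ : G →* GL (Fin d) R)
    (hV : ∀ a : V, Slim (∀ i, W i) ⊤ (stabilizer G a) ∨ FJ.{v, max 1 u v} (stabilizer G a))
    (hA : ∀ a b, T.Adj a b → Acc (fun D₁ D : Subgroup G => ∃ g : G,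
      Half T (g • a) (g • b) ⊂ Half T a b ∧ ¬ Slim (∀ i, W i) φ.ker D ∧
        D₁ = D ⊓ MulAut.conj g • D) (stabilizer G a ⊓ stabilizer G b)) :
    FJ.{v, u} G :=
  Br.fj_of (tfx_fix hT ha hi) (fun a => (hV a).elim (Br.fj_slim hU hb hj) id)
    fun _ _ _ _ _ _ => kz_tw (𝓕 := Fam.fix G V) hU hb hj hT ha hi φ
      (fun a => .inr (.inr ⟨a, fun _ => id⟩)) hA

end Pool.Agent.Results.MP_5d3e93_al.Trees
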